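import Pool.Agent.TH683.RB.Bpp23
import Pool.Agent.W900.RB.Fin
import Pool.Agent.W900.RB.ZFin
import Pool.Agent.H943R3.PP.N2

/-!
# How many strings of a random oracle have to be changed: `BPP` and `NP`, `P` and `ZPP`
-/

set_option autoImplicit false

namespace Pool.Agent.TH683.RB

open MeasureTheory Filter
open Pool.Agent.NPC Pool.Agent.H622R2
open Pool.Agent.H620R2.Gauge Pool.Agent.W900 Pool.Agent.W900.RB
open Pool.Agent.H628R3.RO (randomOracle)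
open Pool.Agent.W900.CH (Close ae_coNP exists_close_PSPACE exists_close_ZPP)

/-- `BPP` is contained in `PP` -/
theorem isPP_of_isBPP {A : Oracle} {L : Set (List Bool)} (h : IsBPP A L) :
    Pool.Agent.H943R3.PP.IsPP A L := by
  obtain ⟨V, p, hV, hL⟩ := isBPP3_of_isBPP h
  refine ⟨V, p, hV, fun x => ⟨fun hx => ?_, fun hx => ?_⟩⟩
  · have := (hL x).1 hx
    linarith
  · have := (hL x).2 hx
    linarith

/-- `BPP` is contained in `PSPACE` -/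
theorem isPSPACE_of_isBPP {A : Oracle} {L : Set (List Bool)} (h : IsBPP A L) : IsPSPACE A L :=
  Pool.Agent.H943R3.PP.isPSPACE_of_isPP (isPP_of_isBPP h)

/-- a language in `NP` whose complement is not in `NP/poly` is not in `BPP` -/
theorem not_bpp {A : Oracle} (h : ∃ L, IsNP A L ∧ ¬ WithAdvice (IsNP A) Lᶜ) :
    ∃ L, IsNP A L ∧ ¬ IsBPP3 A L := by
  obtain ⟨L, h1, h2⟩ := h
  exact ⟨L, h1, fun h3 => h2 (withAdvice_compl (isBPP_of_isBPP3 h3))⟩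

/-- a language in `RP` whose complement is not in `NP` gives one in `BPP` and not in `NP` -/
theorem bpp_not_np {A : Oracle} (h : ∃ L, IsRP A L ∧ ¬ IsNP A Lᶜ) :
    ∃ L, IsBPP3 A L ∧ ¬ IsNP A L := by
  obtain ⟨L, h1, h2⟩ := h
  exact ⟨Lᶜ, isBPP3_of_isBPP (isBPP_compl (isBPP_of_isRP h1)), h2⟩

theorem not_super {g : ℕ → ℝ}
    (hg : ∃ c : ℕ, ∀ᶠ n : ℕ in Filter.atTop, ∃ m ≥ n, g m ≤ (n : ℝ) ^ c) : ¬ Super g := by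
  unfold Super
  push Not
  exact hg

/-- polynomially many changes: `BPP = P` and `NP ⊄ BPP` -/
theorem few_bpp {g : ℕ → ℝ}
    (hg : ∃ c : ℕ, ∀ᶠ n : ℕ in Filter.atTop, ∃ m ≥ n, g m ≤ (n : ℝ) ^ c) :
    ∀ᵐ O ∂randomOracle, ∀ A : Oracle, Close g O A →
      (∀ L, IsBPP3 A L → IsP A L) ∧ ∃ L, IsNP A L ∧ ¬ IsBPP3 A L := by
  obtain ⟨c, hc⟩ := pclose_of_not_super (not_super hg)
  filter_upwards [ae_bpp, ae_coNP (low_of_poly hg)] with O h1 h2 A hA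
  exact ⟨fun L hL => h1 A ⟨c, hc O A hA⟩ L (isBPP_of_isBPP3 hL), not_bpp (h2 A hA)⟩

/-- more changes: `BPP` and `NP` are incomparable -/
theorem many_bpp {g : ℕ → ℝ}
    (hg : ¬ ∃ c : ℕ, ∀ᶠ n : ℕ in Filter.atTop, ∃ m ≥ n, g m ≤ (n : ℝ) ^ c) :
    ∀ᵐ O ∂randomOracle, ∃ A : Oracle, Close g O A ∧
      (∃ L, IsBPP3 A L ∧ ¬ IsNP A L) ∧ ∃ L, IsNP A L ∧ ¬ IsBPP3 A L := by
  filter_upwards [exists_rp_np (super_of_not hg)] with O hO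
  obtain ⟨A, h1, h2, h3⟩ := hO
  exact ⟨A, h1, bpp_not_np h2, not_bpp h3⟩

/-- subexponentially many changes: `NP ⊄ BPP` -/
theorem low_bpp {g : ℕ → ℝ}
    (hg : ∀ ε : ℝ, 0 < ε → ∃ᶠ n : ℕ in Filter.atTop, g n ≤ 2 ^ (n : ℝ) ^ ε) :
    ∀ᵐ O ∂randomOracle, ∀ A : Oracle, Close g O A → ∃ L, IsNP A L ∧ ¬ IsBPP3 A L := by
  filter_upwards [ae_coNP hg] with O h A hA
  exact not_bpp (h A hA)

/-- still more changes: `NP = BPP` -/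
theorem high_eq {g : ℕ → ℝ}
    (hg : ¬ ∀ ε : ℝ, 0 < ε → ∃ᶠ n : ℕ in Filter.atTop, g n ≤ 2 ^ (n : ℝ) ^ ε) (O : Oracle) :
    ∃ A : Oracle, Close g O A ∧ ∀ L, IsNP A L ↔ IsBPP3 A L := by
  obtain ⟨A, hA, h⟩ := exists_close_PSPACE hg O
  refine ⟨A, hA, fun L => ⟨fun hL => ?_, fun hL => ?_⟩⟩
  · exact isBPP3_of_isBPP (isBPP_of_isP (isP_of_reduces (h L hL.isPSPACE)))
  · exact (isP_of_reduces (h L (isPSPACE_of_isBPP (isBPP_of_isBPP3 hL)))).isNP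

/-- still more changes: `NP ⊊ BPP` -/
theorem high_ssub {g : ℕ → ℝ}
    (hg : ¬ ∀ ε : ℝ, 0 < ε → ∃ᶠ n : ℕ in Filter.atTop, g n ≤ 2 ^ (n : ℝ) ^ ε) (O : Oracle) :
    ∃ A : Oracle, Close g O A ∧ (∀ L, IsNP A L → IsBPP3 A L) ∧ ∃ L, IsBPP3 A L ∧ ¬ IsNP A L := by
  obtain ⟨A, hA, h, L, h1, h2⟩ := exists_close_BPP hg O
  exact ⟨A, hA, fun L hL => isBPP3_of_isBPP (h L hL.isNEXP), L, isBPP3_of_isBPP h1, h2⟩

/-- polynomially many changes: `P = RP ∩ coRP`, and this is not `EXP` -/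
theorem few_zpp {g : ℕ → ℝ}
    (hg : ∃ c : ℕ, ∀ᶠ n : ℕ in Filter.atTop, ∃ m ≥ n, g m ≤ (n : ℝ) ^ c) :
    ∀ᵐ O ∂randomOracle, ∀ A : Oracle, Close g O A →
      ∀ L, IsRP A L ∧ IsRP A Lᶜ ↔ IsP A L := by
  obtain ⟨c, hc⟩ := pclose_of_not_super (not_super hg)
  filter_upwards [ae_bpp] with O h1 A hA L
  refine ⟨fun hL => h1 A ⟨c, hc O A hA⟩ L (isBPP_of_isRP hL.1), fun hL => ?_⟩
  exact ⟨isRP_of_isZPP (isZPP_of_isP hL), isRP_compl_of_isZPP (isZPP_of_isP hL)⟩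

/-- more changes: `P ≠ ZPP` -/
theorem many_zpp {g : ℕ → ℝ}
    (hg : ¬ ∃ c : ℕ, ∀ᶠ n : ℕ in Filter.atTop, ∃ m ≥ n, g m ≤ (n : ℝ) ^ c) :
    ∀ᵐ O ∂randomOracle, ∃ A : Oracle, Close g O A ∧
      ∃ L, (IsRP A L ∧ IsRP A Lᶜ) ∧ ¬ IsP A L := by
  filter_upwards [exists_zpp (super_of_not hg)] with O hO
  obtain ⟨A, h1, L, h2, h3⟩ := hO
  exact ⟨A, h1, L, ⟨isRP_of_isZPP h2, isRP_compl_of_isZPP h2⟩, h3⟩

/-- subexponentially many changes: `NP`, hence `EXP`, is not contained in `ZPP` -/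
theorem low_zpp {g : ℕ → ℝ}
    (hg : ∀ ε : ℝ, 0 < ε → ∃ᶠ n : ℕ in Filter.atTop, g n ≤ 2 ^ (n : ℝ) ^ ε) :
    ∀ᵐ O ∂randomOracle, ∀ A : Oracle, Close g O A →
      ∃ L, IsNP A L ∧ ¬ (IsRP A L ∧ IsRP A Lᶜ) := by
  filter_upwards [ae_coNP hg] with O h A hA
  obtain ⟨L, h1, h2⟩ := h A hA
  exact ⟨L, h1, fun h3 => h2 (isNP_of_isRP h3.2).withAdvice⟩

/-- still more changes: `EXP = ZPP ≠ P` -/
theorem high_zpp {g : ℕ → ℝ}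
    (hg : ¬ ∀ ε : ℝ, 0 < ε → ∃ᶠ n : ℕ in Filter.atTop, g n ≤ 2 ^ (n : ℝ) ^ ε) (O : Oracle) :
    ∃ A : Oracle, Close g O A ∧ (∀ L, IsEXP A L → IsRP A L ∧ IsRP A Lᶜ) ∧
      ∃ L, (IsRP A L ∧ IsRP A Lᶜ) ∧ ¬ IsP A L := by
  obtain ⟨A, hA, h, L, h1, h2⟩ := exists_close_ZPP hg O
  exact ⟨A, hA, fun L hL => ⟨isRP_of_isZPP (h L (Or.inl hL)), isRP_compl_of_isZPP (h L (Or.inl hL))⟩,
    L, ⟨isRP_of_isZPP h1, isRP_compl_of_isZPP h1⟩, h2⟩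

end Pool.Agent.TH683.RB
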