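import Pool.Agent.W900.RB.Amp

/-!
# Bounded error: the error `1/3` can be reduced to `2 ^ (-(n + 2))` relative to every oracle
-/

set_option autoImplicit false

namespace Pool.Agent.TH683.RB

open MeasureTheory Finset
open Pool.Agent.NPC Pool.Agent.H622R2
open Pool.Agent.H620R2.Gauge Pool.Agent.W900 Pool.Agent.W900.RB

/-- The language `L` is in `BPP` relative to `A`: for a random string `w` of length `p(|x|)` the
polynomial-time algorithm `V` accepts `⟨w, x⟩` with probability at least `2/3` if `x` is in `L`, and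
at most `1/3` if it is not. -/
def IsBPP3 (A : Oracle) (L : Set (List Bool)) : Prop :=
  ∃ (V : List Bool → List Bool) (p : Polynomial ℕ), IsFP A V ∧ ∀ x,
    (x ∈ L → 2 / 3 ≤ accPr V (p.eval x.length) x) ∧
    (x ∉ L → accPr V (p.eval x.length) x ≤ 1 / 3)

/-- majority vote of `V` over several parts of the coins -/
noncomputable def maj (V : List Bool → List Bool) (p k : Polynomial ℕ) (z : List Bool) :
    List Bool :=
  if k.eval (unpair z).2.length < 2 * (((List.range (k.eval (unpair z).2.length)).map (fun i =>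
    decide (V (pairBits (blk p (i, z)) (unpair z).2) = [true]))).filter (fun b => b)).length
  then [true] else []

theorem isFP_maj {A : Oracle} {V : List Bool → List Bool} (hV : IsFP A V) (p k : Polynomial ℕ) :
    IsFP A (maj V p k) := by
  have hz : Poly (fun y : (ℕ × List Bool) × List Bool => unpair y.1.2) :=
    poly_unpair.comp (Poly.snd (Poly.fst Poly.id))
  have hW : Poly (fun y : (ℕ × List Bool) × List Bool =>
      pairBits (blk p y.1) (unpair y.1.2).2) :=
    poly_pairBits ((poly_blk p).comp (Poly.fst Poly.id)) (Poly.snd hz)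
  have hz' : Poly (fun y : List Bool × List Bool => unpair y.1) :=
    poly_unpair.comp (Poly.fst Poly.id)
  have hk : UPoly (fun y : List Bool × List Bool => k.eval (unpair y.1).2.length) :=
    (UPoly.length (Poly.snd hz')).eval k
  have hH : Poly (fun y : List Bool × List Bool =>
      if k.eval (unpair y.1).2.length <
        2 * ((y.2.take (k.eval (unpair y.1).2.length)).filter (fun b => b)).length then [true]
      else []) := by
    refine Poly.ite (Poly.decide_lt hk.toPoly (Poly.mul (NPC.Poly.const 2)
      (Poly.length ?_))) (NPC.Poly.const _) (NPC.Poly.const _)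
    exact Poly.filter (p := fun (_ : List Bool × List Bool) (b : Bool) => b)
      (IE.poly_take (Poly.snd Poly.id) hk) (Poly.snd Poly.id)
  have hQ : Poly (fun _ : ℕ × List Bool => ([] : List (List Bool))) := NPC.Poly.const _
  have hF := IsFP.votes hV k hQ hW hH
  refine (congrArg (IsFP A) (funext fun z => ?_)).mp hF
  have h2 := eval_mono k (length_unpair_snd z)
  dsimp only
  unfold maj
  congr 1
  rw [eq_iff_iff]
  have h3 : ((List.range (k.eval z.length)).map (fun i =>
      decide (V (pairBits (blk p (i, z)) (unpair z).2) = [true]))).take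
        (k.eval (unpair z).2.length) =
      (List.range (k.eval (unpair z).2.length)).map (fun i =>
      decide (V (pairBits (blk p (i, z)) (unpair z).2) = [true])) := by
    rw [← List.map_take, List.take_range, min_eq_left h2]
  simp only [h3]

open Classical in
theorem card_half_bad (c P : ℕ) (Bad : List Bool → Prop)
    (h : 3 * Nat.card {w : Fin P → Bool // Bad (List.ofFn w)} ≤ 2 ^ P) :
    9 ^ c * Nat.card {r : Fin ((2 * c) * P) → Bool //
      c ≤ (univ.filter fun j : Fin (2 * c) => Bad (chunk P j (List.ofFn r))).card} ≤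
      8 ^ c * 2 ^ ((2 * c) * P) := by
  let e : (Fin ((2 * c) * P) → Bool) ≃ (Fin (2 * c) → Fin P → Bool) :=
    (Equiv.arrowCongr finProdFinEquiv.symm (Equiv.refl Bool)).trans (Equiv.curry _ _ _)
  have he : ∀ (r : Fin ((2 * c) * P) → Bool) (j : Fin (2 * c)),
      chunk P j (List.ofFn r) = List.ofFn (e r j) := by
    intro r j
    rw [chunk_ofFn j.2]
    rfl
  set B := (univ.filter fun w : Fin P → Bool => Bad (List.ofFn w)).card with hB
  have hB' : 3 * B ≤ 2 ^ P := by
    rw [Nat.card_eq_fintype_card, Fintype.card_subtype] at h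
    exact h
  have h1 : ∑ w : Fin P → Bool, (if Bad (List.ofFn w) then 2 else 1) = 2 ^ P + B := by
    have h2 : ∀ w : Fin P → Bool, (if Bad (List.ofFn w) then 2 else 1) =
        1 + if Bad (List.ofFn w) then 1 else 0 := by
      intro w; split_ifs <;> rfl
    rw [sum_congr rfl fun w _ => h2 w, sum_add_distrib, ← card_filter, sum_const, card_univ,
      Fintype.card_fun, Fintype.card_bool, Fintype.card_fin, smul_eq_mul, mul_one]
  have h2 : ∑ r : Fin ((2 * c) * P) → Bool,
      2 ^ (univ.filter fun j : Fin (2 * c) => Bad (chunk P j (List.ofFn r))).card =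
      (2 ^ P + B) ^ (2 * c) := by
    have h3 : ∀ r : Fin ((2 * c) * P) → Bool,
        2 ^ (univ.filter fun j : Fin (2 * c) => Bad (chunk P j (List.ofFn r))).card =
        ∏ j : Fin (2 * c), (if Bad (List.ofFn (e r j)) then 2 else 1) := by
      intro r
      rw [prod_ite, prod_const, prod_const_one, mul_one]
      simp only [he]
    rw [sum_congr rfl fun r _ => h3 r,
      Equiv.sum_comp e (fun f => ∏ j : Fin (2 * c), (if Bad (List.ofFn (f j)) then 2 else 1)),
      ← h1]
    have h4 := Finset.prod_univ_sum (fun _ : Fin (2 * c) => (univ : Finset (Fin P → Bool)))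
      (fun _ w => if Bad (List.ofFn w) then 2 else 1)
    rw [Fintype.piFinset_univ, prod_const, card_univ, Fintype.card_fin] at h4
    exact h4.symm
  have h3 : 2 ^ c * (univ.filter fun r : Fin ((2 * c) * P) → Bool =>
      c ≤ (univ.filter fun j : Fin (2 * c) => Bad (chunk P j (List.ofFn r))).card).card ≤
      (2 ^ P + B) ^ (2 * c) := by
    rw [← h2, mul_comm, ← smul_eq_mul, ← sum_const]
    refine (sum_le_sum fun r hr => ?_).trans (sum_le_sum_of_subset (filter_subset _ _))
    rw [mem_filter] at hr
    exact Nat.pow_le_pow_right (by norm_num) hr.2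
  rw [Nat.card_eq_fintype_card, Fintype.card_subtype]
  have h4 : 9 ^ c * (2 ^ P + B) ^ (2 * c) ≤ 16 ^ c * (2 ^ P) ^ (2 * c) := by
    have h5 : 3 * (2 ^ P + B) ≤ 4 * 2 ^ P := by omega
    have h6 := Nat.pow_le_pow_left h5 (2 * c)
    rw [mul_pow, mul_pow, pow_mul 3, pow_mul 4] at h6
    norm_num at h6
    exact h6
  have h5 : 2 ^ c * (9 ^ c * (univ.filter fun r : Fin ((2 * c) * P) → Bool =>
      c ≤ (univ.filter fun j : Fin (2 * c) => Bad (chunk P j (List.ofFn r))).card).card) ≤
      2 ^ c * (8 ^ c * 2 ^ ((2 * c) * P)) := by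
    calc _ = 9 ^ c * (2 ^ c * (univ.filter fun r : Fin ((2 * c) * P) → Bool =>
      c ≤ (univ.filter fun j : Fin (2 * c) => Bad (chunk P j (List.ofFn r))).card).card) := by ring
      _ ≤ 9 ^ c * (2 ^ P + B) ^ (2 * c) := Nat.mul_le_mul_left _ h3
      _ ≤ 16 ^ c * (2 ^ P) ^ (2 * c) := h4
      _ = 2 ^ c * (8 ^ c * 2 ^ ((2 * c) * P)) := by
        rw [← mul_assoc, ← mul_pow, ← pow_mul, mul_comm P (2 * c)]
        norm_num
  exact Nat.le_of_mul_le_mul_left h5 (by positivity)

theorem card_half_bad' (d P : ℕ) (Bad : List Bool → Prop)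
    (h : 3 * Nat.card {w : Fin P → Bool // Bad (List.ofFn w)} ≤ 2 ^ P) :
    2 ^ d * Nat.card {r : Fin ((2 * (6 * d)) * P) → Bool //
      6 * d ≤ Nat.card {j : Fin (2 * (6 * d)) // Bad (chunk P j (List.ofFn r))}} ≤
      2 ^ ((2 * (6 * d)) * P) := by
  classical
  have h1 := card_half_bad (6 * d) P Bad h
  have h2 : ∀ r : Fin ((2 * (6 * d)) * P) → Bool,
      Nat.card {j : Fin (2 * (6 * d)) // Bad (chunk P j (List.ofFn r))} =
      (univ.filter fun j : Fin (2 * (6 * d)) => Bad (chunk P j (List.ofFn r))).card := by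
    intro r
    rw [Nat.card_eq_fintype_card, Fintype.card_subtype]
  simp only [h2]
  set N := Nat.card {r : Fin ((2 * (6 * d)) * P) → Bool //
      6 * d ≤ (univ.filter fun j : Fin (2 * (6 * d)) => Bad (chunk P j (List.ofFn r))).card} with hN
  have h3 : 8 ^ (6 * d) * (2 ^ d * N) ≤ 8 ^ (6 * d) * 2 ^ ((2 * (6 * d)) * P) := by
    refine le_trans ?_ h1
    rw [← mul_assoc]
    refine Nat.mul_le_mul_right _ ?_
    rw [pow_mul, pow_mul, ← mul_pow]
    exact Nat.pow_le_pow_left (by norm_num) d
  exact Nat.le_of_mul_le_mul_left h3 (by positivity)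

theorem card_add_card_not (n : ℕ) (Q : (Fin n → Bool) → Prop) :
    Nat.card {w : Fin n → Bool // Q w} + Nat.card {w : Fin n → Bool // ¬ Q w} = 2 ^ n := by
  classical
  rw [Nat.card_eq_fintype_card, Nat.card_eq_fintype_card, Fintype.card_subtype,
    Fintype.card_subtype, card_filter_add_card_filter_not, card_univ, Fintype.card_fun,
    Fintype.card_bool, Fintype.card_fin]

open Classical in
theorem isBPP_of_isBPP3 {A : Oracle} {L : Set (List Bool)} (h : IsBPP3 A L) : IsBPP A L := by
  obtain ⟨V, p, hV, hL⟩ := h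
  refine ⟨maj V p (2 * (6 * (Polynomial.X + 2))), (2 * (6 * (Polynomial.X + 2))) * p,
    isFP_maj hV p _, fun x => ?_⟩
  set d := x.length + 2 with hd
  set P := p.eval x.length with hP
  have hk : (2 * (6 * (Polynomial.X + 2)) : Polynomial ℕ).eval x.length = 2 * (6 * d) := by
    simp [hd]
  have hN : ((2 * (6 * (Polynomial.X + 2)) : Polynomial ℕ) * p).eval x.length =
      (2 * (6 * d)) * P := by
    rw [Polynomial.eval_mul, hk]
  have hmaj : ∀ w : List Bool, w.length = (2 * (6 * d)) * P →
      (maj V p (2 * (6 * (Polynomial.X + 2))) (pairBits w x) = [true] ↔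
        6 * d < Nat.card {j : Fin (2 * (6 * d)) // V (pairBits (chunk P j w) x) = [true]}) := by
    intro w hw
    unfold maj
    simp only [unpair_pairBits, hk]
    have h1 : (List.range (2 * (6 * d))).map (fun i =>
        decide (V (pairBits (blk p (i, pairBits w x)) x) = [true])) =
        (List.range (2 * (6 * d))).map (fun i =>
        decide (V (pairBits (chunk P i w) x) = [true])) := by
      apply List.map_congr_left
      intro i hi
      rw [List.mem_range] at hi
      rw [blk_eq hi hw]
    rw [h1, count_list, Nat.card_eq_fintype_card, Fintype.card_subtype]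
    simp only [decide_eq_true_eq]
    constructor
    · intro h2
      split_ifs at h2 with h3
      · omega
    · intro h2
      rw [if_pos (by omega)]
  rw [hN]
  have hbad : 3 * Nat.card {w : Fin P → Bool //
      ¬ (V (pairBits (List.ofFn w) x) = [true] ↔ x ∈ L)} ≤ 2 ^ P := by
    have h1 := hL x
    unfold accPr at h1
    have h2 := card_add_card_not P (fun w => V (pairBits (List.ofFn w) x) = [true])
    by_cases hx : x ∈ L
    · have h3 := h1.1 hx
      rw [le_div_iff₀ (by positivity)] at h3
      simp only [hx, iff_true]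
      have h4 : (Nat.card {w : Fin P → Bool // V (pairBits (List.ofFn w) x) = [true]} : ℝ) +
          Nat.card {w : Fin P → Bool // ¬ V (pairBits (List.ofFn w) x) = [true]} = 2 ^ P := by
        exact_mod_cast h2
      have h5 : 3 * (Nat.card {w : Fin P → Bool // ¬ V (pairBits (List.ofFn w) x) = [true]} : ℝ) ≤
          2 ^ P := by linarith
      exact_mod_cast h5
    · have h3 := h1.2 hx
      rw [div_le_iff₀ (by positivity)] at h3
      simp only [hx, iff_false, not_not]
      have h5 : 3 * (Nat.card {w : Fin P → Bool // V (pairBits (List.ofFn w) x) = [true]} : ℝ) ≤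
          2 ^ P := by linarith
      exact_mod_cast h5
  have hcnt := card_half_bad' d P
    (fun w => ¬ (V (pairBits w x) = [true] ↔ x ∈ L)) hbad
  set N := (2 * (6 * d)) * P with hNd
  -- wrong majority votes come from bad coins
  have hwrong : Nat.card {r : Fin N → Bool //
      ¬ (maj V p (2 * (6 * (Polynomial.X + 2))) (pairBits (List.ofFn r) x) = [true] ↔ x ∈ L)} ≤
      Nat.card {r : Fin N → Bool // 6 * d ≤ Nat.card {j : Fin (2 * (6 * d)) //
        ¬ (V (pairBits (chunk P j (List.ofFn r)) x) = [true] ↔ x ∈ L)}} := by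
    rw [Nat.card_eq_fintype_card, Nat.card_eq_fintype_card, Fintype.card_subtype,
      Fintype.card_subtype]
    apply card_le_card
    intro r hr
    rw [mem_filter] at hr ⊢
    refine ⟨mem_univ _, ?_⟩
    have h1 := hr.2
    rw [hmaj _ (by simp)] at h1
    have h2 := card_filter_add_card_filter_not (s := (univ : Finset (Fin (2 * (6 * d)))))
      (fun j => V (pairBits (chunk P j (List.ofFn r)) x) = [true])
    rw [card_univ, Fintype.card_fin] at h2
    rw [Nat.card_eq_fintype_card, Fintype.card_subtype] at h1 ⊢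
    by_cases hx : x ∈ L
    · simp only [hx, iff_true] at h1 ⊢
      omega
    · simp only [hx, iff_false, not_not] at h1 ⊢
      omega
  have hfin : (2 : ℝ) ^ d * Nat.card {r : Fin N → Bool //
      ¬ (maj V p (2 * (6 * (Polynomial.X + 2))) (pairBits (List.ofFn r) x) = [true] ↔ x ∈ L)} ≤
      2 ^ N := by
    exact_mod_cast (Nat.mul_le_mul_left _ hwrong).trans hcnt
  have h2 := card_add_card_not N
    (fun r => maj V p (2 * (6 * (Polynomial.X + 2))) (pairBits (List.ofFn r) x) = [true])
  have h4 : (Nat.card {w : Fin N → Bool // maj V p (2 * (6 * (Polynomial.X + 2)))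
        (pairBits (List.ofFn w) x) = [true]} : ℝ) +
      Nat.card {w : Fin N → Bool // ¬ maj V p (2 * (6 * (Polynomial.X + 2)))
        (pairBits (List.ofFn w) x) = [true]} = 2 ^ N := by
    exact_mod_cast h2
  unfold accPr
  refine ⟨fun hx => ?_, fun hx => ?_⟩
  · simp only [hx, iff_true] at hfin
    rw [le_div_iff₀ (by positivity), sub_mul, one_mul, div_mul_eq_mul_div, one_mul,
      sub_le_iff_le_add, ← h4]
    gcongr
    rw [h4, le_div_iff₀ (by positivity), mul_comm]
    exact hfin
  · simp only [hx, iff_false, not_not] at hfin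
    rw [div_le_div_iff₀ (by positivity) (by positivity), one_mul, mul_comm]
    exact hfin

theorem isBPP3_of_isBPP {A : Oracle} {L : Set (List Bool)} (h : IsBPP A L) : IsBPP3 A L := by
  obtain ⟨V, p, hV, hL⟩ := h
  refine ⟨V, p, hV, fun x => ?_⟩
  have h1 : (1 : ℝ) / 2 ^ (x.length + 2) ≤ 1 / 4 := by
    have : (4 : ℝ) ≤ 2 ^ (x.length + 2) := by
      rw [pow_add]
      have := one_le_pow₀ (M₀ := ℝ) (by norm_num : (1 : ℝ) ≤ 2) (n := x.length)
      linarith
    exact one_div_le_one_div_of_le (by norm_num) this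
  refine ⟨fun hx => ?_, fun hx => ?_⟩
  · have := (hL x).1 hx
    linarith
  · have := (hL x).2 hx
    linarith

theorem isBPP3_iff {A : Oracle} {L : Set (List Bool)} : IsBPP3 A L ↔ IsBPP A L :=
  ⟨isBPP_of_isBPP3, isBPP3_of_isBPP⟩

end Pool.Agent.TH683.RB
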