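import Pool.Agent.W900.CH.NELev
import Pool.Agent.H620R2.Gauge.Cover
import Pool.Agent.H620R2.Gauge.NonNull
import Pool.Agent.H620R2.Gauge.P
import Pool.Agent.H620R2.Gauge.U2
import Pool.Agent.H943R3.PP.Adv
import Pool.Agent.H943R3.PP.M4
import Pool.Agent.H943R3.PP.N1
import Pool.Agent.H943R3.PP.N2
import Pool.Agent.H943R3.PP.N5
import Pool.Agent.H943R3.PP.Union

/-!
# How many strings of a random oracle have to be changed: `NP`, `PP` and `PSPACE`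
-/

set_option autoImplicit false

namespace Pool.Agent.TH683.RB

open MeasureTheory Filter
open Pool.Agent.NPC
open Pool.Agent.H620R2.Gauge Pool.Agent.H943R3.PP
open Pool.Agent.H628R3.RO (randomOracle)
open Pool.Agent.W900.CH (Close ae_far_P exists_close_PSPACE)

/-- subexponentially many changes: `PP ⊄ PH` -/
theorem low_pp_ph {g : ℕ → ℝ}
    (hg : ∀ ε : ℝ, 0 < ε → ∃ᶠ n : ℕ in Filter.atTop, g n ≤ 2 ^ (n : ℝ) ^ ε) :
    ∀ᵐ O ∂randomOracle, ∀ A : Oracle, Close g O A → ∃ L, IsPP A L ∧ ¬ IsPH A L := by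
  have h3 : ∀ f : ℕ → ℝ, (∀ ε : ℝ, 0 < ε → ∃ᶠ N : ℕ in atTop,
      f N ≤ 2 ^ (Real.logb 2 N) ^ ε) → Null f {A : Oracle | ∀ L, IsPP A L → IsPH A L} := by
    intro f hf
    refine null_of_frequently f hf _ fun A hA => IsPH.isPHpoly ?_
    rw [parLang_eq]
    exact isPH_ex (hA _ (exLang_pp A)) _
  filter_upwards [ae_far_P h3 hg] with O hO A hA
  by_contra hc
  push Not at hc
  exact hO A hA hc

/-- subexponentially many changes: `PSPACE` is not contained in `PP^PH` with polynomial advice -/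
theorem low_pspace_pp {g : ℕ → ℝ}
    (hg : ∀ ε : ℝ, 0 < ε → ∃ᶠ n : ℕ in Filter.atTop, g n ≤ 2 ^ (n : ℝ) ^ ε) :
    ∀ᵐ O ∂randomOracle, ∀ A : Oracle, Close g O A →
      ∃ L, IsPSPACE A L ∧ ¬ WithAdvice (IsPPPH A) L := by
  have h4 : ∀ f : ℕ → ℝ, (∀ ε : ℝ, 0 < ε → ∃ᶠ N : ℕ in atTop,
      f N ≤ 2 ^ (Real.logb 2 N) ^ ε) →
      Null f {A : Oracle | ∀ L, IsPSPACE A L → WithAdvice (IsPPPH A) L} := fun f hf =>
    null2 f hf _ fun A hA => hA _ (parLang_pspace A)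
  filter_upwards [ae_far_P h4 hg] with O hO A hA
  by_contra hc
  push Not at hc
  exact hO A hA hc

theorem low_pp {g : ℕ → ℝ}
    (hg : ∀ ε : ℝ, 0 < ε → ∃ᶠ n : ℕ in Filter.atTop, g n ≤ 2 ^ (n : ℝ) ^ ε) :
    ∀ᵐ O ∂randomOracle, ∀ A : Oracle, Close g O A →
      (∃ L, IsPP A L ∧ ¬ IsPH A L) ∧ (∃ L, IsPP A L ∧ ¬ (IsNP A L ∨ IsNP A Lᶜ)) ∧
      (∃ L, IsPSPACE A L ∧ ¬ WithAdvice (IsPPPH A) L) ∧ ∃ L, IsPSPACE A L ∧ ¬ IsPP A L := by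
  filter_upwards [low_pp_ph hg, low_pspace_pp hg] with O h1 h2 A hA
  obtain ⟨L, h3, h4⟩ := h1 A hA
  obtain ⟨L', h5, h6⟩ := h2 A hA
  refine ⟨⟨L, h3, h4⟩, ⟨L, h3, ?_⟩, ⟨L', h5, h6⟩, L', h5, fun h => h6 ?_⟩
  · rintro (h | h)
    · exact h4 (isPH_of_isNP h)
    · exact h4 (isPH_of_isNP_compl h)
  · exact withAdvice_of_isPPPH (isPPPH_of_isPP h)

/-- more changes: `P = PSPACE` -/
theorem high_pp {g : ℕ → ℝ}
    (hg : ¬ ∀ ε : ℝ, 0 < ε → ∃ᶠ n : ℕ in Filter.atTop, g n ≤ 2 ^ (n : ℝ) ^ ε) (O : Oracle) :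
    ∃ A : Oracle, Close g O A ∧ ∀ L, IsPSPACE A L → IsP A L := by
  obtain ⟨A, hA, h⟩ := exists_close_PSPACE hg O
  exact ⟨A, hA, fun L hL => isP_of_reduces (h L hL)⟩

end Pool.Agent.TH683.RB
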